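import Pool.Agent.D0H25.SZ.Entropy

set_option autoImplicit false

/-!
# Lagrangian fibrations and expanding automorphisms of primitive symplectic torus quotients

Let `X = V / Γ` be a primitive symplectic variety which is the quotient of a complex torus by a finite
group, and let `N¹(X)_ℝ` be the real span of the classes of the line bundles.

* Every rational plane of `N¹(X)_ℝ` which contains an ample class satisfies exactly one of the
  following: it contains the class of a line bundle which induces a Lagrangian fibration of `X`; or there
  is an automorphism of `X` which multiplies a nonzero nef class `f` of the plane with `q_X(f) = 0` by a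
  real number `r > 1` (such an automorphism has infinite order and positive entropy).
* If `X` is projective, then it has an automorphism which multiplies a nonzero nef class `f` of
  `N¹(X)_ℝ` with `q_X(f) = 0` by `r > 1` if and only if the Picard number `ρ(X)` is at least three, or
  `ρ(X) = 2` and `X` has no Lagrangian fibration.

In particular a projective `X` with `ρ(X) ≥ 2` and without Lagrangian fibration has such an automorphism,
and for `ρ(X) = 2` exactly one of the two structures exists: the boundary rays of the nef cone are
generated by the classes of two Lagrangian fibrations, or they are irrational and are the eigenrays of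
an automorphism.

The proof: let `K` be ample and `H` a class of a line bundle. By the Clifford relations of the operators of
the classes, the operator `T` with `K(w, T v) = H(w, v)` satisfies a quadratic equation. Some multiple of
it preserves the lattice, so the coefficients are rational, and there is an integral combination `P` of
`K` and `H` which is orthogonal to `K` and has an operator `T`, `T² = D`, `D` a positive integer. If
`D = r²` then `r K - P` is an isotropic nef class of a line bundle, and induces a Lagrangian fibration
by the starting results of this problem. If `D` is not a square, a solution of Pell's equation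
`A² - D B² = 1` with `A = 1`, `B = 0` modulo `N` gives the automorphism `A - B T` of the lattice, which
normalises `Γ` for the right origin of `V`, and multiplies `√D K - P` by `(A + B √D)²`. If `ρ ≥ 3` the
positive definite binary form `D` of a plane orthogonal to `K` takes a value which is not a square.

`latt`, `IsPrimitiveSymplectic`, `LineBundle` are defined in `Pool.Agent.W594.SYZ.Defs2`; `IsChernForm`,
`IsPositiveForm`, `IsNefForm`, `IsDegenerateForm`, `IsLagrangianFibration`, `Induces` in
`Pool.Agent.W594.SYZ.TQDefs`; `N1`, `picardNumber`, `IsProjective`, `LagFibs` in
`Pool.Agent.D0H25.SZ.Defs`; `IsAut` in `Pool.Agent.D0H25.SZ.AutDefs`; `IsFibrationClass`, `IsExpanded` in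
`Pool.Agent.D0H25.SZ.HypDefs`.
-/

namespace Pool.Agent.Results.MP_e4ecdb_ag.FibrationOrExpansion

open Pool.Agent.W594.SYZ2 Pool.Agent.D0H25.SZ

/-- Let `X = V / Γ`, `V ≠ 0`, be a primitive symplectic torus quotient.

1. Let `L` be an ample line bundle with Chern form `K` and `M` a line bundle whose Chern form `H` is not
   a real multiple of `K`. Exactly one of the following holds: some real combination of `K` and `H` is
   the class of a nontrivial nef line bundle which induces a Lagrangian fibration of `X`; some
   real combination `f ≠ 0` of `K` and `H` is nef with `q_X(f) = 0`, and some automorphism of `X`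
   multiplies it by a real number `r > 1`.
2. Let `X` be projective. There are a nonzero nef class `f` in `N¹(X)_ℝ` with `q_X(f) = 0` and an
   automorphism of `X` which multiplies it by a real number `r > 1`, if and only if `ρ(X) ≥ 3`, or
   `ρ(X) = 2` and `X` has no Lagrangian fibration. -/
theorem result {V : Type*} [NormedAddCommGroup V] [NormedSpace ℂ V] [FiniteDimensional ℂ V]
    [Nontrivial V] (Γ : Subgroup (V ≃ᵃ[ℂ] V)) (hΓ : IsPrimitiveSymplectic Γ) :
    (∀ (L M : LineBundle Γ) (K H : V → V → ℂ), IsChernForm L K → IsPositiveForm K →
      IsChernForm M H → (¬ ∃ r : ℝ, ∀ v w, H v w = (r : ℂ) * K v w) →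
        Xor (∃ x y : ℝ, IsFibrationClass Γ (fun v w => (x : ℂ) * K v w + (y : ℂ) * H v w))
          (∃ (x y : ℝ) (g : V ≃ᵃ[ℂ] V),
            IsExpanded Γ g (fun v w => (x : ℂ) * K v w + (y : ℂ) * H v w))) ∧
    (IsProjective Γ → ((∃ f ∈ N1 Γ, ∃ g : V ≃ᵃ[ℂ] V, IsExpanded Γ g f) ↔
      (3 ≤ picardNumber Γ ∨ picardNumber Γ = 2 ∧ LagFibs Γ = ∅))) :=
  ⟨fun _ _ _ _ hL hK hM hne => plane_xor hΓ hL hK hM hne, fun hP => expanded_iff hΓ hP⟩

end Pool.Agent.Results.MP_e4ecdb_ag.FibrationOrExpansion
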