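import Pool.Agent.D0H25.SZ.Fin

set_option autoImplicit false

/-!
# The Lagrangian fibrations of a primitive symplectic torus quotient

By the starting results of this problem a nontrivial movable line bundle `L` with `q_X(L) = 0` on a
primitive symplectic variety `X = V / Γ` which is the quotient of a complex torus by a finite group is
torsion or induces a holomorphic Lagrangian fibration. Here we determine how many Lagrangian
fibrations `X` has, and how they are related to each other and to the ample line bundles.

* `b₂(X)` is `3`, `4` or `6`, and `ρ(X) ≤ b₂(X) - 2`.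
* If `b₂(X) = 3` there is no Lagrangian fibration. If `X` is not projective there is at most one.
* Any two different Lagrangian fibrations are transversal.
* The pair theorem: if `X` has an ample line bundle `L` and a Lagrangian fibration `f : X → B`, the
  subspaces orthogonal to the fibres of `f` with respect to the Chern form of `L` are the tangent
  spaces of the fibres of a second Lagrangian fibration `f' : X → B'`, and some power of `L` is
  `f^* A ⊗ f'^* A'` for ample line bundles `A`, `A'`: up to a power, `L` is the pullback of the product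
  polarisation under the finite morphism `(f, f') : X → B × B'`.
* So a projective `X` with a Lagrangian fibration has `ρ(X) ≥ 2`. It has exactly two of them if
  `ρ(X) = 2`. If `ρ(X) ≥ 3` then `b₂(X) = 6`, there are infinitely many, and the isogenies of the torus
  which commute with the finite group permute them transitively. In particular the number of
  Lagrangian fibrations is `0`, `1`, `2` or infinite.

The proof: the hermitian forms `H` in `H^{1,1}(X, ℝ)` and the symplectic form `σ` define conjugate
linear operators `J_H`, `H(w, v) = σ(w, J_H v)`, with the Clifford relations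
`J_H J_K + J_K J_H = - 2 q(H, K)`. The product of the operators of three orthogonal classes is, up to the
factor `i`, the operator of a fourth class, and nothing is orthogonal to these four classes; this is
the statement on `b₂`. If `e` is the isotropic class of a fibration and `K` an ample class, the operator
`φ = J_K⁻¹ J_e` is rational and `φ ² = 2 q(K, e) / q(K) φ`; so `2 q(K, e) / q(K)` is a rational number
`m / k`, and `m K - k e` is isotropic and nef.

`latt`, `IsPrimitiveSymplectic`, `LineBundle` are defined in `Pool.Agent.W594.SYZ.Defs2`;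
`IsChernForm`, `IsPositiveForm`, `IsLagrangianFibration` in `Pool.Agent.W594.SYZ.TQDefs`; `IsClass` in
`Pool.Agent.R189.SY.IsoDefs`; `IsRealClass`, `b2`, `h11`, `N1`, `picardNumber`, `IsProjective`,
`LagFibs`, `Splits` in `Pool.Agent.D0H25.SZ.Defs`.
-/

namespace Pool.Agent.Results.MP_e4ecdb_ag.FibrationPairs

open Pool.Agent.W594.SYZ2 Pool.Agent.R189.SY Pool.Agent.D0H25.SZ

/-- Let `X = V / Γ`, `V ≠ 0`, be a primitive symplectic torus quotient.

1. `b₂(X) = h^{1,1}(X) + 2` is `3`, `4` or `6`, and `ρ(X) ≤ h^{1,1}(X)`.
2. Let `L` be an ample line bundle on `X` with Chern form `K` and let `π : V → ℂ ^ n` define a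
   Lagrangian fibration `f : X → B` onto a projective `B`. There is a Lagrangian fibration
   `f' : X → B'` onto a projective `B'`, given by `π'`, such that `V` is the direct sum of the kernels
   of `π` and `π'`, these are orthogonal with respect to `K`, and some power of `L` is
   `f^* A ⊗ f'^* A'` with ample line bundles `A` on `B` and `A'` on `B'`.
3. Different Lagrangian fibrations have complementary tangent spaces of the fibres.
4. If `b₂(X) = 3` there is no Lagrangian fibration; if `X` is not projective there is at most one.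
5. Let `X` be projective with at least one Lagrangian fibration. Then `ρ(X) ≥ 2`. If `ρ(X) = 2` there
   are exactly two. If `ρ(X) ≥ 3` then `b₂(X) = 6`, there are infinitely many, and for any two of them,
   with tangent spaces `U`, `U'` of the fibres, there is a complex linear automorphism `φ` of `V` which
   commutes with the linear parts of `Γ`, maps the lattice into itself, and maps `U` onto `U'`. -/
theorem result {V : Type*} [NormedAddCommGroup V] [NormedSpace ℂ V] [FiniteDimensional ℂ V]
    [Nontrivial V] (Γ : Subgroup (V ≃ᵃ[ℂ] V)) (hΓ : IsPrimitiveSymplectic Γ) :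
    ((b2 Γ = 3 ∨ b2 Γ = 4 ∨ b2 Γ = 6) ∧ b2 Γ = h11 Γ + 2 ∧
      picardNumber Γ + 2 ≤ b2 Γ) ∧
    (∀ (L : LineBundle Γ) (K : V → V → ℂ), IsChernForm L K → IsPositiveForm K →
      ∀ (n : ℕ) (Δ : Subgroup ((Fin n → ℂ) ≃ᵃ[ℂ] (Fin n → ℂ))) (π : V →ₗ[ℂ] (Fin n → ℂ)),
        IsLagrangianFibration Γ Δ π → IsProjective Δ →
        ∃ (n' : ℕ) (Δ' : Subgroup ((Fin n' → ℂ) ≃ᵃ[ℂ] (Fin n' → ℂ)))
          (π' : V →ₗ[ℂ] (Fin n' → ℂ)), IsLagrangianFibration Γ Δ' π' ∧ IsProjective Δ' ∧
          IsCompl (LinearMap.ker π) (LinearMap.ker π') ∧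
          (∀ v v', π v = 0 → π' v' = 0 → K v v' = 0) ∧ Splits L Δ π Δ' π') ∧
    (∀ U ∈ LagFibs Γ, ∀ U' ∈ LagFibs Γ, U ≠ U' → IsCompl U U') ∧
    ((b2 Γ = 3 → LagFibs Γ = ∅) ∧ (¬ IsProjective Γ → (LagFibs Γ).Subsingleton)) ∧
    (IsProjective Γ → (LagFibs Γ).Nonempty → 2 ≤ picardNumber Γ ∧
      (picardNumber Γ = 2 → (LagFibs Γ).ncard = 2) ∧
      (3 ≤ picardNumber Γ → b2 Γ = 6 ∧ (LagFibs Γ).Infinite ∧
        ∀ U ∈ LagFibs Γ, ∀ U' ∈ LagFibs Γ, ∃ φ : V ≃ₗ[ℂ] V,
          (∀ γ ∈ Γ, ∀ v, φ (γ.linear v) = γ.linear (φ v)) ∧ (∀ b ∈ latt Γ, φ b ∈ latt Γ) ∧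
            U.map (φ : V →ₗ[ℂ] V) = U')) := by
  refine ⟨betti hΓ, fun L K hL hK n Δ π hf hΔ => split hΓ hL hK hf hΔ,
    fun U hU U' hU' hne => compl_of_mem hΓ hU hU' hne, ⟨empty_of_three hΓ, fun hP U hU U' hU' => ?_⟩,
    fun hP hne => count hΓ hP hne⟩
  by_contra hne
  exact hP (projective_of_two hΓ hU hU' hne)

end Pool.Agent.Results.MP_e4ecdb_ag.FibrationPairs
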