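import Pool.Agent.D0H25.SZ.Cone

set_option autoImplicit false

/-!
# The nef cone of a primitive symplectic torus quotient with a Lagrangian fibration

Let `X = V / Γ` be a primitive symplectic variety which is the quotient of a complex torus by a finite
group, and suppose that `X` has a Lagrangian fibration. Let `N¹(X)_ℝ` be the real span of the classes of
the line bundles. By the starting results of this problem the nontrivial nef line bundles `L` with
`q_X(L) = 0` induce Lagrangian fibrations. Here we pass to the real classes:

* The real nef classes `f` in `N¹(X)_ℝ` with `q_X(f) = 0` are exactly the limits of the nonnegative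
  multiples of the classes of line bundles which induce Lagrangian fibrations.
* The nef cone in `N¹(X)_ℝ` is the closure of the set of the sums `c e + c' e'`, where `c` and `c'` are
  nonnegative real numbers and `e` and `e'` are classes of line bundles which induce Lagrangian
  fibrations. So it is the closed cone generated by the fibration classes, and two of them suffice.

(The closures are taken in the space of all functions `V × V → ℂ` with the topology of pointwise
convergence, in which `N¹(X)_ℝ` is a closed subspace of finite dimension.)

The proof: let `e` be the class of a fibration. A real ample class `K` is approximated by rational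
ample classes `K_i`. By the pair theorem the second isotropic class in the plane of `K_i` and `e` is
rational and belongs to a fibration, and these classes converge to the second isotropic class in the
plane of `K` and `e`; every isotropic nef class which is not proportional to `e` is of this form.

`latt`, `IsPrimitiveSymplectic`, `LineBundle` are defined in `Pool.Agent.W594.SYZ.Defs2`; `IsChernForm`,
`IsPositiveForm`, `IsNefForm`, `IsDegenerateForm`, `IsLagrangianFibration`, `Induces` in
`Pool.Agent.W594.SYZ.TQDefs`; `N1`, `IsProjective`, `LagFibs` in `Pool.Agent.D0H25.SZ.Defs`;
`IsFibrationClass` in `Pool.Agent.D0H25.SZ.HypDefs`.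
-/

namespace Pool.Agent.Results.MP_e4ecdb_ag.NefCone

open Pool.Agent.W594.SYZ2 Pool.Agent.D0H25.SZ

/-- Let `X = V / Γ`, `V ≠ 0`, be a primitive symplectic torus quotient with at least one Lagrangian
fibration (onto a projective base). The set of the nef classes `f` in `N¹(X)_ℝ` with `q_X(f) = 0` is the
closure of the set of the nonnegative multiples of fibration classes, and the nef cone of `N¹(X)_ℝ` is
the closure of the set of the sums of two nonnegative multiples of fibration classes. -/
theorem result {V : Type*} [NormedAddCommGroup V] [NormedSpace ℂ V] [FiniteDimensional ℂ V]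
    [Nontrivial V] (Γ : Subgroup (V ≃ᵃ[ℂ] V)) (hΓ : IsPrimitiveSymplectic Γ)
    (hne : (LagFibs Γ).Nonempty) :
    {f : V → V → ℂ | f ∈ N1 Γ ∧ IsNefForm f ∧ IsDegenerateForm f} =
      closure {f | ∃ (c : ℝ) (e : V → V → ℂ), 0 ≤ c ∧ IsFibrationClass Γ e ∧ f = c • e} ∧
    {f : V → V → ℂ | f ∈ N1 Γ ∧ IsNefForm f} =
      closure {f | ∃ (c c' : ℝ) (e e' : V → V → ℂ), (0 ≤ c ∧ 0 ≤ c') ∧
        (IsFibrationClass Γ e ∧ IsFibrationClass Γ e') ∧ f = c • e + c' • e'} :=
  ⟨iso_cone hΓ hne, nef_cone hΓ hne⟩

end Pool.Agent.Results.MP_e4ecdb_ag.NefCone
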