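import Pool.Agent.D0H25.SZ.Stable

set_option autoImplicit false

/-!
# Which torus quotients have Lagrangian fibrations

Let `X = V / Γ` be a primitive symplectic variety which is the quotient of a complex torus `V / Λ` by a
finite group. By the starting results of this problem a nontrivial nef line bundle `L` with `q_X(L) = 0`
induces a Lagrangian fibration. Here we describe all Lagrangian fibrations of `X` onto projective
varieties in terms of the torus: their fibres are the images of the translates of the subtori
`U / (U ∩ Λ)`, where `U` is any complex subspace of `V`, `0 ≠ U ≠ V`, which is stable under the linear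
parts of `Γ` and spanned by lattice vectors. So

* `X` has a Lagrangian fibration onto a projective variety if and only if the torus `V / Λ` has a
  subtorus, different from `0` and from the whole torus, which is stable under the finite group;
* every such subtorus is Lagrangian and has half the dimension, and the quotient is always projective,
  even if `X` is not projective (a statement of the type of Matsushita's theorem).

The proof: let `U` be such a subspace. The sum over the group of a hermitian form on `V / U` is a real
class `B` with kernel `U`, so `q_X(B) = 0`. Let `ω` be its imaginary part. Applying a `ℚ`-linear functional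
`ℝ → ℚ` to the values of `ω` on the lattice gives a nonzero rational class `ω'` in `H²(X, ℚ)` which
vanishes on `U`. As the symplectic form is nondegenerate, `ω'` is of type `(1, 1)`. By the Hodge index
theorem the classes of type `(1, 1)` with kernel containing `U` are proportional, so `± ω'` is a
positive multiple of `ω`: it is nef, and by a theorem of the starting files (products of theta
functions) a multiple of it is the class of a line bundle. This line bundle induces the fibration.

`latt`, `IsPrimitiveSymplectic`, `LineBundle` are defined in `Pool.Agent.W594.SYZ.Defs2`; `IsChernForm`,
`IsPositiveForm`, `IsLagrangianFibration` in `Pool.Agent.W594.SYZ.TQDefs`; `IsProjective`, `LagFibs` in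
`Pool.Agent.D0H25.SZ.Defs`.
-/

namespace Pool.Agent.Results.MP_e4ecdb_ag.StableSubtori

open Pool.Agent.W594.SYZ2 Pool.Agent.D0H25.SZ

/-- Let `X = V / Γ`, `V ≠ 0`, be a primitive symplectic torus quotient. The tangent spaces of the fibres
of the Lagrangian fibrations of `X` onto projective varieties are exactly the complex subspaces `U` of
`V`, `0 ≠ U ≠ V`, which are stable under the linear parts of `Γ` and are spanned over `ℝ` by vectors of
the lattice. -/
theorem result {V : Type*} [NormedAddCommGroup V] [NormedSpace ℂ V] [FiniteDimensional ℂ V]
    [Nontrivial V] (Γ : Subgroup (V ≃ᵃ[ℂ] V)) (hΓ : IsPrimitiveSymplectic Γ) :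
    LagFibs Γ = {U : Submodule ℂ V | U ≠ ⊥ ∧ U ≠ ⊤ ∧ (∀ γ ∈ Γ, ∀ v ∈ U, γ.linear v ∈ U) ∧
      Submodule.span ℝ {b | b ∈ latt Γ ∧ b ∈ U} = U.restrictScalars ℝ} :=
  lagFibs_eq hΓ

end Pool.Agent.Results.MP_e4ecdb_ag.StableSubtori
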